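import Pool.Agent.Helper34_Synd.Finite

/-!
# Compressing actions (MP_e6747d_al)

A group that acts by homeomorphisms on an infinite space with enough clopen sets, such that any
finite family of disjoint clopen sets can be moved into any finite family of disjoint clopen sets,
has a left-invariant syndetic submeasure.
-/

set_option autoImplicit false

namespace Pool.Agent.Helper83Comp

open Pool.Agent.Helper34_Synd Set Function

/-- An algebra of sets that separates the points and is invariant under the group. -/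
structure Alg (G : Type*) {X : Type*} [Group G] [MulAction G X] (𝔅 : Set (Set X)) : Prop where
  univ : univ ∈ 𝔅
  compl : ∀ A ∈ 𝔅, Aᶜ ∈ 𝔅
  inter : ∀ A ∈ 𝔅, ∀ B ∈ 𝔅, A ∩ B ∈ 𝔅
  pre : ∀ (g : G), ∀ A ∈ 𝔅, {x | g • x ∈ A} ∈ 𝔅
  sep : ∀ x y : X, x ≠ y → ∃ U ∈ 𝔅, x ∈ U ∧ y ∉ U

/-- Every finite family of pairwise disjoint nonempty sets of the algebra that do not cover the space
can be moved into every family of pairwise disjoint nonempty sets of the algebra. -/
def CompressingSets (G : Type*) {X : Type*} [Group G] [MulAction G X] (𝔅 : Set (Set X)) : Prop :=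
  ∀ (k : ℕ) (D V : Fin k → Set X), (∀ i, D i ∈ 𝔅 ∧ (D i).Nonempty) →
    (∀ i, V i ∈ 𝔅 ∧ (V i).Nonempty) → (∀ i j, i ≠ j → Disjoint (D i) (D j)) →
    (∀ i j, i ≠ j → Disjoint (V i) (V j)) → (⋃ i, D i) ≠ univ →
    ∃ g : G, ∀ i, ∀ x ∈ D i, g • x ∈ V i

section fst

variable {X : Type*} [LinearOrder X] [WellFoundedLT X] [Nonempty X]

open Classical in
/-- The first element of a set. -/
noncomputable def fst (A : Set X) : X :=
  if h : A.Nonempty then (wellFounded_lt (α := X)).min A h else Classical.arbitrary X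

theorem fst_mem {A : Set X} (h : A.Nonempty) : fst A ∈ A := by
  unfold fst
  rw [dif_pos h]
  exact WellFounded.min_mem _ _ _

theorem fst_le {A : Set X} {x : X} (h : x ∈ A) : fst A ≤ x := by
  unfold fst
  rw [dif_pos ⟨x, h⟩]
  exact not_lt.1 (WellFounded.not_lt_min _ _ h)

theorem fst_anti {A B : Set X} (hA : A.Nonempty) (h : A ⊆ B) : fst B ≤ fst A :=
  fst_le (h (fst_mem hA))

end fst

section sep

variable {G X : Type*} [Group G] [MulAction G X] {𝔅 : Set (Set X)}

theorem Alg.iInter (h : Alg G 𝔅) {ι : Type*} [Finite ι] (A : ι → Set X) (hA : ∀ i, A i ∈ 𝔅) :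
    ⋂ i, A i ∈ 𝔅 := by
  classical
  have := Fintype.ofFinite ι
  have key : ∀ s : Finset ι, ⋂ i ∈ s, A i ∈ 𝔅 := by
    intro s
    induction s using Finset.induction_on with
    | empty => simpa using h.univ
    | insert a s ha ih =>
      rw [Finset.set_biInter_insert]
      exact h.inter _ (hA a) _ ih
  simpa using key Finset.univ

theorem Alg.iUnion (h : Alg G 𝔅) {ι : Type*} [Finite ι] (A : ι → Set X) (hA : ∀ i, A i ∈ 𝔅) :
    ⋃ i, A i ∈ 𝔅 := by
  have h1 := h.compl _ (h.iInter (fun i => (A i)ᶜ) fun i => h.compl _ (hA i))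
  rwa [← compl_iUnion, compl_compl] at h1

/-- Separation of finitely many points by a clopen partition. -/
theorem exists_partition (h𝔅 : Alg G 𝔅) (N : ℕ) (y : Fin (N + 1) → X) (hy : Injective y) :
    ∃ P : Fin (N + 1) → Set X, (∀ i, P i ∈ 𝔅) ∧ (∀ i, y i ∈ P i) ∧
      (∀ i j, i ≠ j → Disjoint (P i) (P j)) ∧ ⋃ i, P i = univ := by
  classical
  have h1 : ∀ i j, ∃ U : Set X, i ≠ j → U ∈ 𝔅 ∧ y i ∈ U ∧ y j ∉ U := by
    intro i j
    by_cases h : i = j
    · exact ⟨∅, fun h' => absurd h h'⟩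
    · obtain ⟨U, hU⟩ := h𝔅.sep (y i) (y j) fun h' => h (hy h')
      exact ⟨U, fun _ => hU⟩
  choose U hU using h1
  let W : Fin (N + 1) → Set X := fun i => ⋂ j : {j // j ≠ i}, U i j ∩ (U j i)ᶜ
  have hWc : ∀ i, W i ∈ 𝔅 := fun i =>
    h𝔅.iInter _ fun j => h𝔅.inter _ (hU i j j.2.symm).1 _ (h𝔅.compl _ (hU j i j.2).1)
  have hWy : ∀ i, y i ∈ W i := by
    intro i
    rw [mem_iInter]
    intro j
    exact ⟨(hU i j j.2.symm).2.1, (hU j i j.2).2.2⟩
  have hWd : ∀ i j, i ≠ j → Disjoint (W i) (W j) := by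
    intro i j hij
    rw [Set.disjoint_left]
    intro x hx hx'
    have a1 := (mem_iInter.1 hx ⟨j, hij.symm⟩).2
    have a2 := (mem_iInter.1 hx' ⟨i, hij⟩).1
    exact a1 a2
  refine ⟨fun i => if i = Fin.last N then (⋃ j : {j // j ≠ Fin.last N}, W j)ᶜ else W i,
    ?_, ?_, ?_, ?_⟩
  · intro i
    simp only
    split_ifs
    · exact h𝔅.compl _ (h𝔅.iUnion _ fun j : {j // j ≠ Fin.last N} => hWc j)
    · exact hWc i
  · intro i
    simp only
    split_ifs with h
    · rw [mem_compl_iff, mem_iUnion]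
      rintro ⟨j, hj⟩
      exact Set.disjoint_left.1 (hWd i j (by rw [h]; exact j.2.symm)) (hWy i) hj
    · exact hWy i
  · intro i j hij
    simp only
    split_ifs with h h' h'
    · exact absurd (h.trans h'.symm) hij
    · rw [Set.disjoint_left]
      intro x hx hx'
      exact hx (mem_iUnion.2 ⟨⟨j, h'⟩, hx'⟩)
    · rw [Set.disjoint_left]
      intro x hx hx'
      exact hx' (mem_iUnion.2 ⟨⟨i, h⟩, hx⟩)
    · exact hWd i j hij
  · rw [eq_univ_iff_forall]
    intro x
    rw [mem_iUnion]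
    by_cases hx : ∃ j : {j // j ≠ Fin.last N}, x ∈ W j
    · obtain ⟨j, hj⟩ := hx
      exact ⟨j, by simp only [if_neg j.2]; exact hj⟩
    · exact ⟨Fin.last N, by
        simp only [if_true]
        rw [mem_compl_iff, mem_iUnion]
        exact hx⟩

/-- Distinct representatives of infinite sets. -/
theorem exists_injective_mem {X : Type*} : ∀ (N : ℕ) (S : Fin N → Set X),
    (∀ i, (S i).Infinite) → ∃ y : Fin N → X, Injective y ∧ ∀ i, y i ∈ S i
  | 0, _, _ => ⟨fun i => i.elim0, fun i => i.elim0, fun i => i.elim0⟩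
  | N + 1, S, hS => by
    obtain ⟨y, hy1, hy2⟩ := exists_injective_mem N (fun i => S i.succ) fun i => hS _
    obtain ⟨z, hz1, hz2⟩ := (hS 0).exists_notMem_finite (Set.finite_range y)
    refine ⟨Fin.cons z y, ?_, ?_⟩
    · rw [Fin.cons_injective_iff]
      exact ⟨hz2, hy1⟩
    · intro i
      refine Fin.cases ?_ (fun i => ?_) i
      · exact hz1
      · exact hy2 i

end sep

end Pool.Agent.Helper83Comp
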