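import Pool.Agent.Helper83_Comp.Main

/-!
# Compressing actions on Boolean algebras (MP_e6747d_al)
-/

set_option autoImplicit false

namespace Pool.Agent.Helper83Comp

open Pool.Agent.Helper34_Synd Set Function

variable (G B : Type*) [Group G] [BooleanAlgebra B] [MulAction G B]

/-- The group acts on the Boolean algebra `B` by order automorphisms, and every finite family of
pairwise disjoint nonzero elements whose join is not the top element can be moved below every family
of pairwise disjoint nonzero elements. -/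
structure Compressing : Prop where
  mono : ∀ (g : G) (a b : B), a ≤ b → g • a ≤ g • b
  move : ∀ (k : ℕ) (D V : Fin k → B), (∀ i, D i ≠ ⊥) → (∀ i, V i ≠ ⊥) →
    (∀ i j, i ≠ j → Disjoint (D i) (D j)) → (∀ i j, i ≠ j → Disjoint (V i) (V j)) →
    Finset.univ.sup D ≠ ⊤ → ∃ g : G, ∀ i, g • D i ≤ V i

variable {G B}

/-- The order automorphism given by a group element. -/
def autG (hmono : ∀ (g : G) (a b : B), a ≤ b → g • a ≤ g • b) (g : G) : B ≃o B where
  toFun a := g • a
  invFun a := g⁻¹ • a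
  left_inv a := inv_smul_smul g a
  right_inv a := smul_inv_smul g a
  map_rel_iff' := by
    intro a b
    refine ⟨fun h => ?_, fun h => hmono g a b h⟩
    have h' := hmono g⁻¹ _ _ h
    simpa using h'

theorem autG_apply (hmono : ∀ (g : G) (a b : B), a ≤ b → g • a ≤ g • b) (g : G) (a : B) :
    autG hmono g a = g • a := rfl

/-- Ultrafilters of a Boolean algebra. -/
def Stone (B : Type*) [BooleanAlgebra B] : Type _ :=
  {f : Set B // ⊤ ∈ f ∧ (∀ a b, a ⊓ b ∈ f ↔ a ∈ f ∧ b ∈ f) ∧ ∀ a, aᶜ ∈ f ↔ a ∉ f}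

theorem Stone.mono (x : Stone B) {a b : B} (h : a ≤ b) (ha : a ∈ x.1) : b ∈ x.1 := by
  have h1 : a ⊓ b ∈ x.1 := by rwa [inf_eq_left.2 h]
  exact ((x.2.2.1 a b).1 h1).2

theorem Stone.bot (x : Stone B) : ⊥ ∉ x.1 := by
  have h := (x.2.2.2 ⊤).not
  rw [compl_top] at h
  rw [h, not_not]
  exact x.2.1

theorem Stone.sup (x : Stone B) (a b : B) : a ⊔ b ∈ x.1 ↔ a ∈ x.1 ∨ b ∈ x.1 := by
  have h1 : a ⊔ b = (aᶜ ⊓ bᶜ)ᶜ := by rw [compl_inf, compl_compl, compl_compl]
  rw [h1, x.2.2.2, x.2.2.1, x.2.2.2, x.2.2.2]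
  tauto

theorem Stone.finset_sup (x : Stone B) {ι : Type*} (s : Finset ι) (D : ι → B) :
    s.sup D ∈ x.1 ↔ ∃ i ∈ s, D i ∈ x.1 := by
  classical
  induction s using Finset.induction_on with
  | empty => simpa using x.bot
  | insert a s ha ih =>
    rw [Finset.sup_insert, x.sup, ih]
    simp

/-- Enough ultrafilters. -/
theorem Stone.exists_mem (a b : B) (h : ¬ a ≤ b) : ∃ x : Stone B, a ∈ x.1 ∧ b ∉ x.1 := by
  obtain ⟨J, hJ, hIJ, hFJ⟩ := DistribLattice.prime_ideal_of_disjoint_filter_ideal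
    (F := Order.PFilter.principal a) (I := Order.Ideal.principal b) (by
      rw [Set.disjoint_left]
      intro x hx hx'
      exact h (le_trans hx hx'))
  refine ⟨⟨{c | c ∉ J}, ?_, ?_, ?_⟩, ?_, ?_⟩
  · exact hJ.toIsProper.top_notMem
  · intro c d
    constructor
    · intro hcd
      exact ⟨fun hc => hcd (J.lower inf_le_left hc), fun hd => hcd (J.lower inf_le_right hd)⟩
    · rintro ⟨hc, hd⟩ hcd
      rcases hJ.mem_or_mem hcd with h | h
      · exact hc h
      · exact hd h
  · intro c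
    show cᶜ ∉ J ↔ ¬ (c ∉ J)
    rw [not_not]
    constructor
    · intro hc
      exact (hJ.mem_or_compl_mem (x := c)).resolve_right hc
    · intro hc hc'
      apply hJ.toIsProper.top_notMem
      have := J.sup_mem hc hc'
      rwa [sup_compl_eq_top] at this
  · intro ha
    exact Set.disjoint_left.1 hFJ (le_refl a : a ∈ (Order.PFilter.principal a : Set B)) ha
  · intro hb
    exact hb (hIJ (le_refl b : b ∈ Order.Ideal.principal b))

theorem Stone.exists_of_ne_bot {a : B} (h : a ≠ ⊥) : ∃ x : Stone B, a ∈ x.1 := by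
  obtain ⟨x, hx, -⟩ := Stone.exists_mem a ⊥ (by rwa [le_bot_iff])
  exact ⟨x, hx⟩

/-- The action on the Stone space. -/
@[instance_reducible]
def stoneAct (hmono : ∀ (g : G) (a b : B), a ≤ b → g • a ≤ g • b) : MulAction G (Stone B) where
  smul g x := ⟨{b | g⁻¹ • b ∈ x.1}, by
    have e : ∀ a : B, g⁻¹ • a = autG hmono g⁻¹ a := fun a => rfl
    refine ⟨?_, ?_, ?_⟩
    · show g⁻¹ • (⊤ : B) ∈ x.1
      rw [e, map_top]
      exact x.2.1
    · intro a b
      show g⁻¹ • (a ⊓ b) ∈ x.1 ↔ g⁻¹ • a ∈ x.1 ∧ g⁻¹ • b ∈ x.1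
      rw [e, e, e, map_inf]
      exact x.2.2.1 _ _
    · intro a
      show g⁻¹ • aᶜ ∈ x.1 ↔ g⁻¹ • a ∉ x.1
      rw [e, e, map_compl']
      exact x.2.2.2 _⟩
  one_smul x := by
    apply Subtype.ext
    show {b | (1 : G)⁻¹ • b ∈ x.1} = x.1
    simp
  mul_smul g h x := by
    apply Subtype.ext
    show {b | (g * h)⁻¹ • b ∈ x.1} = {b | h⁻¹ • (g⁻¹ • b) ∈ x.1}
    simp only [mul_inv_rev, mul_smul]

/-- The set of ultrafilters that contain `a`. -/
def cyl (a : B) : Set (Stone B) := {x | a ∈ x.1}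

theorem cyl_injective : Injective (cyl : B → Set (Stone B)) := by
  intro a b hab
  apply le_antisymm
  · by_contra h
    obtain ⟨x, hx, hx'⟩ := Stone.exists_mem a b h
    exact hx' (show x ∈ cyl b by rw [← hab]; exact hx)
  · by_contra h
    obtain ⟨x, hx, hx'⟩ := Stone.exists_mem b a h
    exact hx' (show x ∈ cyl a by rw [hab]; exact hx)

theorem stone_infinite [Infinite B] : Infinite (Stone B) := by
  by_contra h
  rw [not_infinite_iff_finite] at h
  have : Finite B := Finite.of_injective _ cyl_injective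
  exact not_finite B

theorem good_of_compressing [Infinite B] (hc : Compressing G B) : Good G := by
  let _ : MulAction G (Stone B) := stoneAct hc.mono
  have hinf : Infinite (Stone B) := stone_infinite
  have hsm : ∀ (g : G) (x : Stone B) (a : B), a ∈ (g • x).1 ↔ g⁻¹ • a ∈ x.1 := fun g x a => Iff.rfl
  have hA : Alg G (Set.range (cyl : B → Set (Stone B))) := by
    refine ⟨⟨⊤, ?_⟩, ?_, ?_, ?_, ?_⟩
    · ext x
      exact ⟨fun _ => trivial, fun _ => x.2.1⟩
    · rintro _ ⟨a, rfl⟩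
      refine ⟨aᶜ, ?_⟩
      ext x
      exact x.2.2.2 a
    · rintro _ ⟨a, rfl⟩ _ ⟨b, rfl⟩
      refine ⟨a ⊓ b, ?_⟩
      ext x
      exact x.2.2.1 a b
    · rintro g _ ⟨a, rfl⟩
      refine ⟨g⁻¹ • a, ?_⟩
      ext x
      exact (hsm g x a).symm
    · intro x y hxy
      have h : ¬ ∀ a, a ∈ x.1 ↔ a ∈ y.1 := fun h => hxy (Subtype.ext (Set.ext h))
      push Not at h
      obtain ⟨a, ha⟩ := h
      rcases ha with ⟨h1, h2⟩ | ⟨h1, h2⟩
      · exact ⟨cyl a, ⟨a, rfl⟩, h1, h2⟩
      · exact ⟨cyl aᶜ, ⟨aᶜ, rfl⟩, (x.2.2.2 a).2 h1, fun h => (y.2.2.2 a).1 h h2⟩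
  apply good_of_compressingSets hA
  intro k D V hD hV hDd hVd hne
  choose a ha using fun i => (hD i).1
  choose b hb using fun i => (hV i).1
  have hdis : ∀ c d : B, Disjoint (cyl c) (cyl d) → Disjoint c d := by
    intro c d h
    rw [disjoint_iff]
    by_contra h0
    obtain ⟨x, hx⟩ := Stone.exists_of_ne_bot h0
    have := (x.2.2.1 c d).1 hx
    exact Set.disjoint_left.1 h this.1 this.2
  obtain ⟨g, hg⟩ := hc.move k a b (by
      intro i h0
      obtain ⟨x, hx⟩ := (hD i).2
      rw [← ha i] at hx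
      rw [h0] at hx
      exact x.bot hx) (by
      intro i h0
      obtain ⟨x, hx⟩ := (hV i).2
      rw [← hb i] at hx
      rw [h0] at hx
      exact x.bot hx) (by
      intro i j hij
      apply hdis
      rw [ha, ha]
      exact hDd i j hij) (by
      intro i j hij
      apply hdis
      rw [hb, hb]
      exact hVd i j hij) (by
      intro htop
      apply hne
      rw [Set.eq_univ_iff_forall]
      intro x
      have hx : Finset.univ.sup a ∈ x.1 := by rw [htop]; exact x.2.1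
      obtain ⟨i, -, hi⟩ := (x.finset_sup _ _).1 hx
      exact Set.mem_iUnion.2 ⟨i, by rw [← ha i]; exact hi⟩)
  refine ⟨g, fun i x hx => ?_⟩
  rw [← ha i] at hx
  rw [← hb i]
  show g⁻¹ • b i ∈ x.1
  apply x.mono _ hx
  have := hc.mono g⁻¹ _ _ (hg i)
  rwa [inv_smul_smul] at this

end Pool.Agent.Helper83Comp
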