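import Pool.Agent.Helper83_Comp.Bool

/-!
# Automorphism groups of homogeneous Boolean algebras (MP_e6747d_al)
-/

set_option autoImplicit false

namespace Pool.Agent.Helper83Comp

open Pool.Agent.Helper34_Synd Set Function

/-- A Boolean algebra is homogeneous if it is isomorphic to every nontrivial interval `[⊥, a]`. -/
def Homogeneous (B : Type*) [BooleanAlgebra B] : Prop :=
  ∀ a b : B, a ≠ ⊥ → b ≠ ⊥ → Nonempty (Set.Iic a ≃o Set.Iic b)

section glue

variable {B : Type*} [BooleanAlgebra B] {n : ℕ} (D V : Fin n → B)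
  (φ : ∀ i, Set.Iic (D i) ≃o Set.Iic (V i))

/-- Gluing of isomorphisms of the pieces. -/
def glue (x : B) : B := Finset.univ.sup fun i => (φ i ⟨x ⊓ D i, inf_le_right⟩ : B)

theorem glue_mono {x y : B} (h : x ≤ y) : glue D V φ x ≤ glue D V φ y := by
  apply Finset.sup_mono_fun
  intro i _
  have h1 : (⟨x ⊓ D i, inf_le_right⟩ : Set.Iic (D i)) ≤ ⟨y ⊓ D i, inf_le_right⟩ :=
    inf_le_inf_right _ h
  exact (φ i).monotone h1

theorem glue_inf (hV : ∀ i j, i ≠ j → Disjoint (V i) (V j)) (x : B) (j : Fin n) :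
    glue D V φ x ⊓ V j = (φ j ⟨x ⊓ D j, inf_le_right⟩ : B) := by
  unfold glue
  rw [Finset.sup_inf_distrib_right]
  apply le_antisymm
  · apply Finset.sup_le
    intro i _
    by_cases hij : i = j
    · subst hij
      exact inf_le_left
    · have h1 : (φ i ⟨x ⊓ D i, inf_le_right⟩ : B) ⊓ V j ≤ ⊥ :=
        (inf_le_inf_right _ (φ i ⟨x ⊓ D i, inf_le_right⟩).2).trans (hV i j hij).le_bot
      exact h1.trans bot_le
  · have h1 : (φ j ⟨x ⊓ D j, inf_le_right⟩ : B) ≤ (φ j ⟨x ⊓ D j, inf_le_right⟩ : B) ⊓ V j :=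
      le_inf le_rfl (φ j ⟨x ⊓ D j, inf_le_right⟩).2
    exact h1.trans (Finset.le_sup (f := fun i => (φ i ⟨x ⊓ D i, inf_le_right⟩ : B) ⊓ V j)
      (Finset.mem_univ j))

theorem glue_glue (hV : ∀ i j, i ≠ j → Disjoint (V i) (V j)) (hD : Finset.univ.sup D = ⊤) (x : B) :
    glue V D (fun i => (φ i).symm) (glue D V φ x) = x := by
  have h1 : glue V D (fun i => (φ i).symm) (glue D V φ x) = Finset.univ.sup fun i => x ⊓ D i := by
    unfold glue
    apply Finset.sup_congr rfl
    intro j _
    have h2 := glue_inf D V φ hV x j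
    unfold glue at h2
    have h3 : (⟨(Finset.univ.sup fun i => (φ i ⟨x ⊓ D i, inf_le_right⟩ : B)) ⊓ V j, inf_le_right⟩ :
        Set.Iic (V j)) = φ j ⟨x ⊓ D j, inf_le_right⟩ := Subtype.ext h2
    rw [h3, OrderIso.symm_apply_apply]
  rw [h1, ← Finset.sup_inf_distrib_left, hD, inf_top_eq]

/-- The automorphism glued from isomorphisms of the pieces of two partitions. -/
def glueIso (hDd : ∀ i j, i ≠ j → Disjoint (D i) (D j)) (hVd : ∀ i j, i ≠ j → Disjoint (V i) (V j))
    (hD : Finset.univ.sup D = ⊤) (hV : Finset.univ.sup V = ⊤) : B ≃o B where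
  toFun := glue D V φ
  invFun := glue V D fun i => (φ i).symm
  left_inv := glue_glue D V φ hVd hD
  right_inv := glue_glue V D (fun i => (φ i).symm) hDd hV
  map_rel_iff' := by
    intro a b
    refine ⟨fun h => ?_, fun h => glue_mono D V φ h⟩
    have h1 := glue_mono V D (fun i => (φ i).symm) h
    change glue V D (fun i => (φ i).symm) (glue D V φ a) ≤
      glue V D (fun i => (φ i).symm) (glue D V φ b) at h1
    rwa [glue_glue D V φ hVd hD, glue_glue D V φ hVd hD] at h1

theorem glueIso_le (hDd : ∀ i j, i ≠ j → Disjoint (D i) (D j))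
    (hVd : ∀ i j, i ≠ j → Disjoint (V i) (V j))
    (hD : Finset.univ.sup D = ⊤) (hV : Finset.univ.sup V = ⊤) (i : Fin n) :
    glueIso D V φ hDd hVd hD hV (D i) ≤ V i := by
  show glue D V φ (D i) ≤ V i
  apply Finset.sup_le
  intro j _
  by_cases hij : i = j
  · subst hij
    exact (φ i ⟨D i ⊓ D i, inf_le_right⟩).2
  · have h1 : (⟨D i ⊓ D j, inf_le_right⟩ : Set.Iic (D j)) = ⊥ :=
      Subtype.ext (hDd i j hij).eq_bot
    rw [h1, map_bot]
    exact bot_le

end glue

section homog

variable {B : Type*} [BooleanAlgebra B]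

theorem exists_between_of_homogeneous [Infinite B] (h : Homogeneous B) {a : B} (ha : a ≠ ⊥) :
    ∃ b : B, b ≠ ⊥ ∧ b ≤ a ∧ a \ b ≠ ⊥ := by
  have hnt : Nontrivial B := inferInstance
  obtain ⟨φ⟩ := h ⊤ a top_ne_bot ha
  obtain ⟨c, hc0, hc1⟩ : ∃ c : B, c ≠ ⊥ ∧ c ≠ ⊤ := by
    by_contra hcon
    push Not at hcon
    have hfin : Finite B := by
      have : (Set.univ : Set B) ⊆ {⊥, ⊤} := by
        intro x _
        by_cases hx : x = ⊥
        · exact Or.inl hx
        · exact Or.inr (hcon x hx)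
      exact Set.finite_univ_iff.1 ((Set.toFinite {⊥, ⊤}).subset this)
    exact not_finite B
  refine ⟨(φ ⟨c, le_top⟩ : B), ?_, (φ ⟨c, le_top⟩).2, ?_⟩
  · intro h0
    apply hc0
    have h1 : φ ⟨c, le_top⟩ = ⊥ := Subtype.ext h0
    rw [map_eq_bot_iff] at h1
    exact congrArg Subtype.val h1
  · intro h0
    apply hc1
    have h2 : a ≤ (φ ⟨c, le_top⟩ : B) := sdiff_eq_bot_iff.1 h0
    have h3 : φ ⟨c, le_top⟩ = ⊤ := top_unique h2
    rw [map_eq_top_iff] at h3
    exact congrArg Subtype.val h3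

theorem exists_auto [Infinite B] (h : Homogeneous B) (k : ℕ) (D V : Fin k → B)
    (hD : ∀ i, D i ≠ ⊥) (hV : ∀ i, V i ≠ ⊥) (hDd : ∀ i j, i ≠ j → Disjoint (D i) (D j))
    (hVd : ∀ i j, i ≠ j → Disjoint (V i) (V j)) (hne : Finset.univ.sup D ≠ ⊤) :
    ∃ f : B ≃o B, ∀ i, f (D i) ≤ V i := by
  rcases Nat.eq_zero_or_pos k with rfl | hk
  · exact ⟨OrderIso.refl B, fun i => i.elim0⟩
  choose W hW0 hW1 hW2 using fun i => exists_between_of_homogeneous h (hV i)
  let D' : Fin (k + 1) → B := Fin.snoc D (Finset.univ.sup D)ᶜ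
  let V' : Fin (k + 1) → B := Fin.snoc W (Finset.univ.sup W)ᶜ
  have hWd : ∀ i j, i ≠ j → Disjoint (W i) (W j) := fun i j hij =>
    (hVd i j hij).mono (hW1 i) (hW1 j)
  have hWne : Finset.univ.sup W ≠ ⊤ := by
    intro htop
    apply hW2 ⟨0, hk⟩
    have h1 : V ⟨0, hk⟩ \ W ⟨0, hk⟩ ≤ Finset.univ.sup W := by rw [htop]; exact le_top
    have h2 : V ⟨0, hk⟩ \ W ⟨0, hk⟩ = (V ⟨0, hk⟩ \ W ⟨0, hk⟩) ⊓ Finset.univ.sup W :=
      (inf_eq_left.2 h1).symm
    rw [h2, Finset.sup_inf_distrib_left]
    rw [Finset.sup_eq_bot_iff]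
    intro i _
    by_cases hi : i = ⟨0, hk⟩
    · subst hi
      exact disjoint_sdiff_self_left.eq_bot
    · have : Disjoint (V ⟨0, hk⟩ \ W ⟨0, hk⟩) (W i) :=
        (hVd ⟨0, hk⟩ i (Ne.symm hi)).mono sdiff_le (hW1 i)
      exact this.eq_bot
  have snocd : ∀ (E : Fin k → B), (∀ i j, i ≠ j → Disjoint (E i) (E j)) →
      ∀ i j, i ≠ j → Disjoint ((Fin.snoc E (Finset.univ.sup E)ᶜ : Fin (k + 1) → B) i)
        ((Fin.snoc E (Finset.univ.sup E)ᶜ : Fin (k + 1) → B) j) := by
    intro E hE i j hij
    induction i using Fin.lastCases with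
    | last =>
      induction j using Fin.lastCases with
      | last => exact absurd rfl hij
      | cast j =>
        rw [Fin.snoc_last, Fin.snoc_castSucc]
        exact (disjoint_compl_left).mono_right (Finset.le_sup (Finset.mem_univ j))
    | cast i =>
      induction j using Fin.lastCases with
      | last =>
        rw [Fin.snoc_last, Fin.snoc_castSucc]
        exact (disjoint_compl_right).mono_left (Finset.le_sup (Finset.mem_univ i))
      | cast j =>
        rw [Fin.snoc_castSucc, Fin.snoc_castSucc]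
        exact hE i j fun h => hij (by rw [h])
  have snoct : ∀ (E : Fin k → B),
      Finset.univ.sup (Fin.snoc E (Finset.univ.sup E)ᶜ : Fin (k + 1) → B) = ⊤ := by
    intro E
    rw [eq_top_iff, ← sup_compl_eq_top (x := Finset.univ.sup E)]
    apply sup_le
    · apply Finset.sup_le
      intro i _
      have := Finset.le_sup (f := (Fin.snoc E (Finset.univ.sup E)ᶜ : Fin (k + 1) → B))
        (Finset.mem_univ i.castSucc)
      rwa [Fin.snoc_castSucc] at this
    · have := Finset.le_sup (f := (Fin.snoc E (Finset.univ.sup E)ᶜ : Fin (k + 1) → B))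
        (Finset.mem_univ (Fin.last k))
      rwa [Fin.snoc_last] at this
  have hφ : ∀ i, Nonempty (Set.Iic (D' i) ≃o Set.Iic (V' i)) := by
    intro i
    apply h
    · induction i using Fin.lastCases with
      | last =>
        simp only [D', Fin.snoc_last]
        intro h0
        exact hne (compl_eq_bot.1 h0)
      | cast i =>
        simp only [D', Fin.snoc_castSucc]
        exact hD i
    · induction i using Fin.lastCases with
      | last =>
        simp only [V', Fin.snoc_last]
        intro h0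
        exact hWne (compl_eq_bot.1 h0)
      | cast i =>
        simp only [V', Fin.snoc_castSucc]
        exact hW0 i
  have φ := fun i => (hφ i).some
  refine ⟨glueIso D' V' φ (snocd D hDd) (snocd W hWd) (snoct D) (snoct W), fun i => ?_⟩
  have h1 := glueIso_le D' V' φ (snocd D hDd) (snocd W hWd) (snoct D) (snoct W) i.castSucc
  have h2 : D' i.castSucc = D i := Fin.snoc_castSucc (α := fun _ => B) _ _ _
  have h3 : V' i.castSucc = W i := Fin.snoc_castSucc (α := fun _ => B) _ _ _
  rw [h2, h3] at h1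
  exact h1.trans (hW1 i)

/-- Every group that acts on an infinite homogeneous Boolean algebra by automorphisms and induces all
automorphisms is compressing. -/
theorem compressing_of_homogeneous [Infinite B] (h : Homogeneous B) (G : Type*) [Group G]
    [MulAction G B] (hmono : ∀ (g : G) (a b : B), a ≤ b → g • a ≤ g • b)
    (hall : ∀ f : B ≃o B, ∃ g : G, ∀ a : B, g • a = f a) : Compressing G B := by
  refine ⟨hmono, fun k D V hD hV hDd hVd hne => ?_⟩
  obtain ⟨f, hf⟩ := exists_auto h k D V hD hV hDd hVd hne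
  obtain ⟨g, hg⟩ := hall f
  exact ⟨g, fun i => by rw [hg]; exact hf i⟩

/-- The automorphism group of an infinite homogeneous Boolean algebra is good. -/
theorem good_orderIso [Infinite B] (h : Homogeneous B) : Good (B ≃o B) := by
  let _ : MulAction (B ≃o B) B :=
    { smul := fun f a => f a
      one_smul := fun _ => rfl
      mul_smul := fun _ _ _ => rfl }
  exact good_of_compressing (compressing_of_homogeneous h (B ≃o B)
    (fun g a b hab => g.monotone hab) fun f => ⟨f, fun _ => rfl⟩)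

end homog

end Pool.Agent.Helper83Comp
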