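import Pool.Agent.Helper83_Comp.Basic

/-!
# Compressing actions: the main theorem
-/

set_option autoImplicit false

open scoped BigOperators

namespace Pool.Agent.Helper83Comp

open Pool.Agent.Helper34_Synd Set Function

section key

variable {G X : Type*} [Group G] [MulAction G X] [LinearOrder X] [WellFoundedLT X] [Nonempty X]

/-- The time at which `g` enters `A`. -/
noncomputable def tm (g : G) (A : Set X) : X := fst {x | g • x ∈ A}

theorem pre_nonempty (g : G) {A : Set X} (h : A.Nonempty) : {x : X | g • x ∈ A}.Nonempty := by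
  obtain ⟨a, ha⟩ := h
  exact ⟨g⁻¹ • a, by simpa using ha⟩

theorem tm_mem (g : G) {A : Set X} (h : A.Nonempty) : g • tm g A ∈ A :=
  fst_mem (pre_nonempty g h)

theorem tm_ne (g : G) {A B : Set X} (hA : A.Nonempty) (hB : B.Nonempty) (h : Disjoint A B) :
    tm g A ≠ tm g B := fun h' => Set.disjoint_left.1 h (tm_mem g hA) (h' ▸ tm_mem g hB)

/-- The sorting permutation. -/
theorem exists_sort (g : G) {N : ℕ} (P : Fin N → Set X) (hne : ∀ i, (P i).Nonempty)
    (hd : ∀ i j, i ≠ j → Disjoint (P i) (P j)) :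
    ∃ σ : Equiv.Perm (Fin N), StrictMono fun i => tm g (P (σ i)) := by
  refine ⟨Tuple.sort fun i => tm g (P i), ?_⟩
  have h1 := Tuple.monotone_sort fun i => tm g (P i)
  apply h1.strictMono_of_injective
  intro i j hij
  by_contra hne'
  exact tm_ne g (hne _) (hne _) (hd _ _ fun h => hne' ((Tuple.sort _).injective h)) hij

/-- The comparison of entrance times. -/
theorem key {N : ℕ} (P : Fin (N + 1) → Set X) (hP : ⋃ i, P i = univ)
    (hne : ∀ i, (P i).Nonempty) (g f : G) (σ : Equiv.Perm (Fin (N + 1)))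
    (hσ : StrictMono fun i => tm g (P (σ i))) (V : Fin N → Set X)
    (hf : ∀ i : Fin N, ∀ x ∈ P (σ i.castSucc), f • x ∈ V i) (C C' : Set X) (hC' : C'.Nonempty)
    (l : Fin N) (hl : V l ⊆ C) (hl' : ∀ i ≤ l, Disjoint (V i) C') :
    tm (f * g) C < tm (f * g) C' := by
  have h1 : tm (f * g) C ≤ tm g (P (σ l.castSucc)) := by
    apply fst_le
    change (f * g) • tm g (P (σ l.castSucc)) ∈ C
    rw [mul_smul]
    exact hl (hf l _ (tm_mem g (hne _)))
  have h2 := tm_mem (f * g) hC'
  rw [mul_smul] at h2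
  have h3 : g • tm (f * g) C' ∈ ⋃ i, P i := by rw [hP]; trivial
  obtain ⟨j, hj⟩ := mem_iUnion.1 h3
  obtain ⟨i, rfl⟩ := σ.surjective j
  have h4 : l.castSucc < i := by
    by_contra hcon
    rw [not_lt] at hcon
    have hi : i ≠ Fin.last N := by
      rintro rfl
      exact absurd (Fin.castSucc_lt_last l) (not_lt.2 hcon)
    obtain ⟨i', rfl⟩ := Fin.exists_castSucc_eq.2 hi
    exact Set.disjoint_left.1 (hl' i' (Fin.castSucc_le_castSucc_iff.1 hcon)) (hf i' _ hj) h2
  have h5 : tm g (P (σ i)) ≤ tm (f * g) C' := fst_le hj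
  exact lt_of_le_of_lt h1 (lt_of_lt_of_le (hσ h4) h5)

end key

section main

variable {G X : Type*} [Group G] [MulAction G X] {𝔅 : Set (Set X)}

/-- The moving elements. -/
theorem exists_move (hc : CompressingSets G 𝔅) {N : ℕ} (P : Fin (N + 1) → Set X)
    (hPc : ∀ i, P i ∈ 𝔅) (hne : ∀ i, (P i).Nonempty)
    (hd : ∀ i j, i ≠ j → Disjoint (P i) (P j)) (V : Fin N → Set X)
    (hV : ∀ i, V i ∈ 𝔅 ∧ (V i).Nonempty) (hVd : ∀ i j, i ≠ j → Disjoint (V i) (V j))
    (σ : Equiv.Perm (Fin (N + 1))) :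
    ∃ f : G, ∀ i : Fin N, ∀ x ∈ P (σ i.castSucc), f • x ∈ V i := by
  apply hc N (fun i => P (σ i.castSucc)) V (fun i => ⟨hPc _, hne _⟩) hV
    (fun i j hij => hd _ _ fun h => hij (Fin.castSucc_injective _ (σ.injective h))) hVd
  intro h
  obtain ⟨x, hx⟩ := hne (σ (Fin.last N))
  have hx' : x ∈ ⋃ i : Fin N, P (σ i.castSucc) := by rw [h]; trivial
  obtain ⟨i, hi⟩ := mem_iUnion.1 hx'
  refine Set.disjoint_left.1 (hd (σ i.castSucc) (σ (Fin.last N)) fun h' => ?_) hi hx
  exact (Fin.castSucc_lt_last i).ne (σ.injective h')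

/-- Nonempty sets of the algebra are infinite. -/
theorem mem_infinite [Infinite X] (h𝔅 : Alg G 𝔅) (hc : CompressingSets G 𝔅) (C : Set X)
    (hC : C ∈ 𝔅) (hCn : C.Nonempty) : C.Infinite := by
  intro hfin
  have := hfin.to_subtype
  obtain ⟨y, hy⟩ : ∃ y : Fin (Nat.card C + 1 + 1) → X, Injective y :=
    ⟨fun i => Infinite.natEmbedding X i, fun i j h =>
      Fin.ext ((Infinite.natEmbedding X).injective h)⟩
  obtain ⟨P, hPc, hPy, hPd, hPu⟩ := exists_partition h𝔅 _ y hy
  obtain ⟨g, hg⟩ := hc 1 (fun _ => (P (Fin.last _))ᶜ) (fun _ => C)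
    (fun _ => ⟨h𝔅.compl _ (hPc _), y 0, Set.disjoint_left.1
      (hPd 0 (Fin.last _) (Fin.last_pos).ne) (hPy 0)⟩)
    (fun _ => ⟨hC, hCn⟩) (fun i j hij => absurd (Subsingleton.elim i j) hij)
    (fun i j hij => absurd (Subsingleton.elim i j) hij) (by
      intro h
      have : y (Fin.last _) ∈ ⋃ i : Fin 1, (P (Fin.last _))ᶜ := by rw [h]; trivial
      obtain ⟨i, hi⟩ := mem_iUnion.1 this
      exact hi (hPy _))
  have h1 : Injective fun i : Fin (Nat.card C + 1) => (⟨g • y i.castSucc, hg 0 _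
      (Set.disjoint_left.1 (hPd i.castSucc (Fin.last _) (Fin.castSucc_lt_last i).ne)
        (hPy i.castSucc))⟩ : C) := by
    intro i j hij
    have h2 : g • y i.castSucc = g • y j.castSucc := congrArg Subtype.val hij
    exact Fin.castSucc_injective _ (hy (MulAction.injective g h2))
  have h2 := Nat.card_le_card_of_injective _ h1
  rw [Nat.card_fin] at h2
  have h3 : Nat.card {x // x ∈ C} = Nat.card C := rfl
  omega

theorem count_le (T : Finset (G × ℕ)) (hT : ∑ p ∈ T, (1 / 2 : ℝ) ^ p.2 < 1) (n : ℕ) :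
    (T.filter fun p => p.2 ≤ n).card < 2 ^ n := by
  have h1 : ((T.filter fun p => p.2 ≤ n).card : ℝ) * (1 / 2 : ℝ) ^ n < 1 := by
    calc ((T.filter fun p => p.2 ≤ n).card : ℝ) * (1 / 2 : ℝ) ^ n
        = ∑ p ∈ T.filter (fun p => p.2 ≤ n), (1 / 2 : ℝ) ^ n := by
          rw [Finset.sum_const, nsmul_eq_mul]
      _ ≤ ∑ p ∈ T.filter (fun p => p.2 ≤ n), (1 / 2 : ℝ) ^ p.2 := by
          apply Finset.sum_le_sum
          intro p hp
          exact pow_le_pow_of_le_one (by norm_num) (by norm_num) (Finset.mem_filter.1 hp).2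
      _ ≤ ∑ p ∈ T, (1 / 2 : ℝ) ^ p.2 := by
          apply Finset.sum_le_sum_of_subset_of_nonneg (Finset.filter_subset _ _)
          intro p _ _
          positivity
      _ < 1 := hT
  rw [one_div, inv_pow, mul_inv_lt_iff₀ (by positivity), one_mul] at h1
  exact_mod_cast h1

theorem good_of_compressingSets [Infinite X] (h𝔅 : Alg G 𝔅) (hc : CompressingSets G 𝔅) :
    Good G := by
  classical
  obtain ⟨_, _⟩ := exists_wellFoundedLT X
  have : Nonempty X := inferInstance
  -- the partitions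
  have hpart : ∀ n : ℕ, ∃ A : Fin (2 ^ n + 1) → Set X, (∀ i, A i ∈ 𝔅) ∧
      (∀ i, (A i).Nonempty) ∧ (∀ i j, i ≠ j → Disjoint (A i) (A j)) ∧ ⋃ i, A i = univ := by
    intro n
    obtain ⟨P, hPc, hPy, hPd, hPu⟩ := exists_partition h𝔅 (2 ^ n)
      (fun i => Infinite.natEmbedding X i) (fun i j h =>
      Fin.ext ((Infinite.natEmbedding X).injective h))
    exact ⟨P, hPc, fun i => ⟨_, hPy i⟩, hPd, hPu⟩
  choose A hAc hAn hAd hAu using hpart
  refine ⟨fun n => {g | StrictMono fun i => tm g (A n i)}, ?_, ?_⟩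
  · intro n
    have hmove : ∀ σ : Equiv.Perm (Fin (2 ^ n + 1)), ∃ f : G, ∀ i : Fin (2 ^ n),
        ∀ x ∈ A n (σ i.castSucc), f • x ∈ A n i.castSucc := fun σ =>
      exists_move hc (A n) (hAc n) (hAn n) (hAd n) (fun i => A n i.castSucc)
        (fun i => ⟨hAc n _, hAn n _⟩)
        (fun i j hij => hAd n _ _ fun h => hij (Fin.castSucc_injective _ h)) σ
    choose k hk using hmove
    refine ⟨Finset.univ.image fun σ => (k σ)⁻¹, fun g => ?_⟩
    obtain ⟨σ, hσ⟩ := exists_sort g (A n) (hAn n) (hAd n)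
    refine ⟨(k σ)⁻¹, Finset.mem_image_of_mem _ (Finset.mem_univ σ), ?_⟩
    rw [inv_inv]
    change StrictMono fun i => tm (k σ * g) (A n i)
    intro i j hij
    have hi : i ≠ Fin.last _ := (lt_of_lt_of_le hij (Fin.le_last j)).ne
    obtain ⟨i', rfl⟩ := Fin.exists_castSucc_eq.2 hi
    apply key (A n) (hAu n) (hAn n) g (k σ) σ hσ (fun i => A n i.castSucc) (hk σ) _ _ (hAn n j)
      i' subset_rfl
    intro l hl
    apply hAd n
    intro h
    rw [← h] at hij
    exact absurd hl (not_le.2 (Fin.castSucc_lt_castSucc_iff.1 hij))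
  · intro T hT
    -- enumeration of `T` with nondecreasing indices
    let N := T.card
    let e := T.equivFin
    let s : Equiv.Perm (Fin N) := Tuple.sort fun i => (e.symm i).1.2
    let p : Fin N → G × ℕ := fun i => (e.symm (s i)).1
    have hpT : ∀ i, p i ∈ T := fun i => (e.symm (s i)).2
    have hpinj : Injective p := fun i j h => s.injective (e.symm.injective (Subtype.ext h))
    have hpsurj : ∀ q ∈ T, ∃ i, p i = q := by
      intro q hq
      refine ⟨s.symm (e ⟨q, hq⟩), ?_⟩
      simp [p]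
    have hpm : ∀ i j, i ≤ j → (p i).2 ≤ (p j).2 := fun i j hij =>
      Tuple.monotone_sort (fun i => (e.symm i).1.2) hij
    have hcount : ∀ l : Fin N, (l : ℕ) + 1 < 2 ^ (p l).2 := by
      intro l
      refine lt_of_le_of_lt ?_ (count_le T hT (p l).2)
      have h1 : ((Finset.univ.filter fun i : Fin N => i ≤ l).image p) ⊆
          T.filter fun q => q.2 ≤ (p l).2 := by
        intro q hq
        obtain ⟨i, hi, rfl⟩ := Finset.mem_image.1 hq
        exact Finset.mem_filter.2 ⟨hpT i, hpm i l (Finset.mem_filter.1 hi).2⟩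
      have h2 := Finset.card_le_card h1
      rw [Finset.card_image_of_injective _ hpinj] at h2
      have h3 : (Finset.univ.filter fun i : Fin N => i ≤ l).card = (l : ℕ) + 1 := by
        have : (Finset.univ.filter fun i : Fin N => i ≤ l) = Finset.Iic l := by
          ext i; simp
        rw [this, Fin.card_Iic]
      omega
    -- the translated partitions
    let C : G × ℕ → (j : ℕ) → Set X := fun q j =>
      if h : j < 2 ^ q.2 + 1 then {z | q.1⁻¹ • z ∈ A q.2 ⟨j, h⟩} else ∅
    have hCdef : ∀ (q : G × ℕ) (j : Fin (2 ^ q.2 + 1)), C q j = {z | q.1⁻¹ • z ∈ A q.2 j} := by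
      intro q j
      simp only [C, dif_pos j.2]
    have hCc : ∀ (q : G × ℕ) (j : Fin (2 ^ q.2 + 1)), C q j ∈ 𝔅 := by
      intro q j
      rw [hCdef]
      exact h𝔅.pre _ _ (hAc q.2 j)
    have hCn : ∀ (q : G × ℕ) (j : Fin (2 ^ q.2 + 1)), (C q j).Nonempty := by
      intro q j
      rw [hCdef]
      obtain ⟨a, ha⟩ := hAn q.2 j
      exact ⟨q.1 • a, by simpa using ha⟩
    have hcell : ∀ (q : G × ℕ) (z : X), ∃ j : Fin (2 ^ q.2 + 1), z ∈ C q j := by
      intro q z
      have : q.1⁻¹ • z ∈ ⋃ i, A q.2 i := by rw [hAu]; trivial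
      obtain ⟨j, hj⟩ := mem_iUnion.1 this
      exact ⟨j, by rw [hCdef]; exact hj⟩
    have hCd : ∀ (q : G × ℕ) (i j : Fin (2 ^ q.2 + 1)), i ≠ j → Disjoint (C q i) (C q j) := by
      intro q i j hij
      rw [hCdef, hCdef, Set.disjoint_left]
      intro z hz hz'
      exact Set.disjoint_left.1 (hAd q.2 i j hij) hz hz'
    choose cl hcl using hcell
    -- the points
    obtain ⟨y, hy1, hy2⟩ := exists_injective_mem (N + 1)
      (fun i => if h : (i : ℕ) < N then C (p ⟨i, h⟩) (Fin.last (2 ^ (p ⟨i, h⟩).2) : Fin _)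
        else univ) (by
        intro i
        by_cases h : (i : ℕ) < N
        · rw [dif_pos h]
          exact mem_infinite h𝔅 hc _ (hCc _ _) (hCn _ _)
        · rw [dif_neg h]
          exact Set.infinite_univ)
    have hy3 : ∀ l : Fin N, y l.castSucc ∈ C (p l) (Fin.last (2 ^ (p l).2) : Fin _) := by
      intro l
      have := hy2 l.castSucc
      rw [dif_pos (show ((l.castSucc : Fin (N + 1)) : ℕ) < N from l.2)] at this
      exact this
    obtain ⟨P, hPc, hPy, hPd, hPu⟩ := exists_partition h𝔅 N y hy1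
    let V : Fin N → Set X := fun l => P l.castSucc ∩ ⋂ q : T, C q.1 (cl q.1 (y l.castSucc))
    have hVc : ∀ l, V l ∈ 𝔅 ∧ (V l).Nonempty := by
      intro l
      refine ⟨h𝔅.inter _ (hPc _) _ (h𝔅.iInter _ fun q => hCc _ _), y l.castSucc,
        hPy _, ?_⟩
      rw [mem_iInter]
      exact fun q => hcl _ _
    have hVd : ∀ i j, i ≠ j → Disjoint (V i) (V j) := fun i j hij =>
      (hPd _ _ fun h => hij (Fin.castSucc_injective _ h)).mono inter_subset_left
        inter_subset_left
    have hVC : ∀ l, ∀ q ∈ T, V l ⊆ C q (cl q (y l.castSucc)) := by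
      intro l q hq z hz
      exact mem_iInter.1 hz.2 ⟨q, hq⟩
    have hPn : ∀ i, (P i).Nonempty := fun i => ⟨_, hPy i⟩
    choose f hf using fun σ => exists_move hc P hPc hPn hPd V hVc hVd σ
    refine ⟨Finset.univ.image f, fun g => ?_⟩
    obtain ⟨σ, hσ⟩ := exists_sort g P hPn hPd
    refine ⟨f σ, Finset.mem_image_of_mem _ (Finset.mem_univ σ), fun q hq hmono => ?_⟩
    obtain ⟨l, rfl⟩ := hpsurj q hq
    -- a cell that is not met
    obtain ⟨j, hj⟩ : ∃ j : Fin (2 ^ (p l).2), ∀ i ≤ l,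
        cl (p l) (y i.castSucc) ≠ j.castSucc := by
      by_contra hcon
      push Not at hcon
      choose w hw1 hw2 using hcon
      have hinj : Injective w := by
        intro j j' h
        apply Fin.castSucc_injective
        rw [← hw2 j, ← hw2 j', h]
      have h1 : Finset.univ.image w ⊆ Finset.Iic l := by
        intro i hi
        obtain ⟨j, _, rfl⟩ := Finset.mem_image.1 hi
        exact Finset.mem_Iic.2 (hw1 j)
      have h2 := Finset.card_le_card h1
      rw [Finset.card_image_of_injective _ hinj, Finset.card_univ, Fintype.card_fin,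
        Fin.card_Iic] at h2
      have := hcount l
      omega
    have hlast : cl (p l) (y l.castSucc) = Fin.last _ := by
      by_contra hne
      exact Set.disjoint_left.1 (hCd (p l) _ _ hne) (hcl _ _) (hy3 l)
    have h1 := key P hPu hPn g (f σ) σ hσ V (hf σ) (C (p l) (Fin.last (2 ^ (p l).2) : Fin _))
      (C (p l) j.castSucc) (hCn _ _) l (by
        have := hVC l (p l) (hpT l)
        rwa [hlast] at this) (by
        intro i hi
        exact (hCd (p l) _ _ (hj i hi)).mono_left (hVC i (p l) (hpT l)))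
    have h2 : tm ((p l).1⁻¹ * (f σ * g)) (A (p l).2 j.castSucc) <
        tm ((p l).1⁻¹ * (f σ * g)) (A (p l).2 (Fin.last _)) :=
      hmono (Fin.castSucc_lt_last j)
    have h3 : ∀ j : Fin (2 ^ (p l).2 + 1), tm ((p l).1⁻¹ * (f σ * g)) (A (p l).2 j) =
        tm (f σ * g) (C (p l) j) := by
      intro j
      unfold tm
      rw [hCdef]
      congr 1
      ext x
      simp only [Set.mem_ofPred_eq]
      rw [mul_smul]
    rw [h3, h3] at h2
    exact absurd h1 (not_lt.2 h2.le)

end main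

end Pool.Agent.Helper83Comp
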